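import Mathlib

/-!
# MP_629379_al: maximal tori inside a matrix-product subvariety of `GL_n^r`

The finiteness statement is false: for `n = 2`, `r = 4` and `M_1 = ⋯ = M_5 = 1` the maximal tori
lying in `X = {h_1 h_2 h_3 h_4 = 1}` fall into infinitely many orbits of the stabilizer of `X` in
the group of algebraic automorphisms of `GL_2^4` (and even under the group of all abstract
automorphisms preserving `X`).
-/

namespace Pool.Agent.Results.MP_629379_al.InfinitelyManyOrbits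

open Matrix

/-- The group `GL_n(K)^r`. -/
abbrev GLr (K : Type*) [Field K] (n r : ℕ) := Fin r → GL (Fin n) K

variable (K : Type*) [Field K]

/-- The algebra of regular functions on `GL_n^r`: the `K`-algebra of functions generated by the
entries of the components `h_k` and of their inverses `h_k⁻¹`. -/
def regular (n r : ℕ) : Subalgebra K (GLr K n r → K) :=
  Algebra.adjoin K
    ({f | ∃ k i j, f = fun h => (h k : Matrix (Fin n) (Fin n) K) i j} ∪
     {f | ∃ k i j, f = fun h => (((h k)⁻¹ : GL (Fin n) K) : Matrix (Fin n) (Fin n) K) i j})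

/-- The algebra of regular functions on `G_m^d = (Kˣ)^d`: the Laurent polynomials. -/
def laurent (d : ℕ) : Subalgebra K ((Fin d → Kˣ) → K) :=
  Algebra.adjoin K
    ({f | ∃ i, f = fun t => ((t i : Kˣ) : K)} ∪ {f | ∃ i, f = fun t => (((t i)⁻¹ : Kˣ) : K)})

variable {K}

/-- Zariski closed subsets of `GL_n^r`: the common zero sets of regular functions. -/
def ZariskiClosed {n r : ℕ} (S : Set (GLr K n r)) : Prop :=
  ∃ F : Set (GLr K n r → K), F ⊆ regular K n r ∧ S = {h | ∀ f ∈ F, f h = 0}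

/-- A torus in `GL_n^r`: a closed subgroup isomorphic, as an algebraic group, to `G_m^d`, that is,
there is a group isomorphism which is a morphism of varieties in both directions. -/
def IsTorus {n r : ℕ} (T : Subgroup (GLr K n r)) : Prop :=
  ZariskiClosed (T : Set (GLr K n r)) ∧
  ∃ (d : ℕ) (e : (Fin d → Kˣ) ≃* T),
    (∀ f ∈ regular K n r, (fun t => f (e t)) ∈ laurent K d) ∧
    (∀ g ∈ laurent K d, ∃ f ∈ regular K n r, ∀ h : T, f h = g (e.symm h))

/-- The variety `X = {(h_1, …, h_r) : M_1 h_1 M_2 h_2 ⋯ M_r h_r M_{r+1} = 1}`. -/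
def X {n r : ℕ} (M : Fin (r + 1) → GL (Fin n) K) : Set (GLr K n r) :=
  {h | (List.ofFn fun k : Fin r => M k.castSucc * h k).prod * M (Fin.last r) = 1}

/-- `T` is a torus contained in `X` and no torus contained in `X` properly contains it. -/
def IsMaximalTorusIn {n r : ℕ} (X : Set (GLr K n r)) (T : Subgroup (GLr K n r)) : Prop :=
  IsTorus T ∧ (T : Set (GLr K n r)) ⊆ X ∧
    ∀ T' : Subgroup (GLr K n r), IsTorus T' → (T' : Set (GLr K n r)) ⊆ X → T ≤ T' → T' = T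

/-- `H`: the group of those automorphisms `σ` of the algebraic group `GL_n^r` (group automorphisms
which are morphisms of varieties together with their inverses) such that `σ(X) = X`. -/
def H {n r : ℕ} (M : Fin (r + 1) → GL (Fin n) K) : Set (GLr K n r ≃* GLr K n r) :=
  {σ | (∀ f ∈ regular K n r, f ∘ σ ∈ regular K n r) ∧
       (∀ f ∈ regular K n r, f ∘ σ.symm ∈ regular K n r) ∧ σ '' X M = X M}

/-- The `H`-orbit of a subgroup `T`. -/
def orbit {n r : ℕ} (M : Fin (r + 1) → GL (Fin n) K) (T : Subgroup (GLr K n r)) :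
    Set (Subgroup (GLr K n r)) :=
  {T' | ∃ σ ∈ H M, T' = T.map σ.toMonoidHom}

/-- Semisimple means diagonalizable. -/
def IsSemisimple {n : ℕ} (A : GL (Fin n) K) : Prop :=
  ∃ (P : GL (Fin n) K) (d : Fin n → K),
    (A : Matrix (Fin n) (Fin n) K) = P * Matrix.diagonal d * (P⁻¹ : GL (Fin n) K)

/-! ### Scalar matrices in `GL_2` -/

/-- scalar matrices -/
def sc (g : GL (Fin 2) K) : Prop :=
  (g : Matrix (Fin 2) (Fin 2) K) 0 1 = 0 ∧ (g : Matrix (Fin 2) (Fin 2) K) 1 0 = 0 ∧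
    (g : Matrix (Fin 2) (Fin 2) K) 0 0 = (g : Matrix (Fin 2) (Fin 2) K) 1 1

theorem gl_ext {a b : GL (Fin 2) K}
    (h00 : (a : Matrix (Fin 2) (Fin 2) K) 0 0 = (b : Matrix (Fin 2) (Fin 2) K) 0 0)
    (h01 : (a : Matrix (Fin 2) (Fin 2) K) 0 1 = (b : Matrix (Fin 2) (Fin 2) K) 0 1)
    (h10 : (a : Matrix (Fin 2) (Fin 2) K) 1 0 = (b : Matrix (Fin 2) (Fin 2) K) 1 0)
    (h11 : (a : Matrix (Fin 2) (Fin 2) K) 1 1 = (b : Matrix (Fin 2) (Fin 2) K) 1 1) : a = b := by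
  apply Units.ext
  ext i j
  fin_cases i <;> fin_cases j <;> assumption

theorem mul_entry (a b : GL (Fin 2) K) (i j : Fin 2) :
    ((a * b : GL (Fin 2) K) : Matrix (Fin 2) (Fin 2) K) i j =
      (a : Matrix (Fin 2) (Fin 2) K) i 0 * (b : Matrix (Fin 2) (Fin 2) K) 0 j +
      (a : Matrix (Fin 2) (Fin 2) K) i 1 * (b : Matrix (Fin 2) (Fin 2) K) 1 j := by
  simp [Matrix.mul_apply, Fin.sum_univ_two]

theorem sc.comm {g : GL (Fin 2) K} (hg : sc g) (h : GL (Fin 2) K) : g * h = h * g := by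
  obtain ⟨h01, h10, hd⟩ := hg
  apply gl_ext <;> simp only [mul_entry, h01, h10, hd] <;> ring

/-- the commutation relations -/
theorem comm_rel {a b : GL (Fin 2) K} (h : a * b = b * a) :
    (a : Matrix (Fin 2) (Fin 2) K) 0 1 * (b : Matrix (Fin 2) (Fin 2) K) 1 0 =
      (a : Matrix (Fin 2) (Fin 2) K) 1 0 * (b : Matrix (Fin 2) (Fin 2) K) 0 1 ∧
    (a : Matrix (Fin 2) (Fin 2) K) 0 1 *
        ((b : Matrix (Fin 2) (Fin 2) K) 0 0 - (b : Matrix (Fin 2) (Fin 2) K) 1 1) =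
      ((a : Matrix (Fin 2) (Fin 2) K) 0 0 - (a : Matrix (Fin 2) (Fin 2) K) 1 1) *
        (b : Matrix (Fin 2) (Fin 2) K) 0 1 ∧
    (a : Matrix (Fin 2) (Fin 2) K) 1 0 *
        ((b : Matrix (Fin 2) (Fin 2) K) 0 0 - (b : Matrix (Fin 2) (Fin 2) K) 1 1) =
      ((a : Matrix (Fin 2) (Fin 2) K) 0 0 - (a : Matrix (Fin 2) (Fin 2) K) 1 1) *
        (b : Matrix (Fin 2) (Fin 2) K) 1 0 := by
  have e : ∀ i j, ((a * b : GL (Fin 2) K) : Matrix (Fin 2) (Fin 2) K) i j =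
      ((b * a : GL (Fin 2) K) : Matrix (Fin 2) (Fin 2) K) i j := by
    intro i j; rw [h]
  have e00 := e 0 0
  have e01 := e 0 1
  have e10 := e 1 0
  simp only [mul_entry] at e00 e01 e10
  refine ⟨by linear_combination e00, by linear_combination -e01, by linear_combination e10⟩

/-- elementary matrices -/
def upE (t : K) : GL (Fin 2) K where
  val := !![1, t; 0, 1]
  inv := !![1, -t; 0, 1]
  val_inv := by ext i j; fin_cases i <;> fin_cases j <;> simp
  inv_val := by ext i j; fin_cases i <;> fin_cases j <;> simp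

/-- elementary matrices -/
def loE (t : K) : GL (Fin 2) K where
  val := !![1, 0; t, 1]
  inv := !![1, 0; -t, 1]
  val_inv := by ext i j; fin_cases i <;> fin_cases j <;> simp
  inv_val := by ext i j; fin_cases i <;> fin_cases j <;> simp

theorem sc_of_comm [CharZero K] {g : GL (Fin 2) K} (h : ∀ x, g * x = x * g) : sc g := by
  have h1 := comm_rel (h (upE 1))
  have h2 := comm_rel (h (loE 1))
  simp [upE, loE] at h1 h2
  refine ⟨by simpa using h2.1, by simpa using h1.1.symm, ?_⟩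
  rw [← sub_eq_zero]
  simpa using h1.2.symm

/-- If `a` commutes with all conjugates of `b` then `a` or `b` is scalar. -/
theorem key [CharZero K] {a b : GL (Fin 2) K}
    (h : ∀ c : GL (Fin 2) K, a * (c * b * c⁻¹) = (c * b * c⁻¹) * a) : sc a ∨ sc b := by
  have h0 := comm_rel (h 1)
  have h1 := comm_rel (h (upE 1))
  have h2 := comm_rel (h (upE (-1)))
  have h3 := comm_rel (h (loE 1))
  have h4 := comm_rel (h (loE (-1)))
  have u1 : ∀ t : K, ∀ i j, ((upE t : GL (Fin 2) K)⁻¹ : GL (Fin 2) K).val i j =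
      (!![1, -t; 0, 1] : Matrix (Fin 2) (Fin 2) K) i j := fun t i j => rfl
  have u2 : ∀ t : K, ∀ i j, (upE t : GL (Fin 2) K).val i j =
      (!![1, t; 0, 1] : Matrix (Fin 2) (Fin 2) K) i j := fun t i j => rfl
  have l1 : ∀ t : K, ∀ i j, ((loE t : GL (Fin 2) K)⁻¹ : GL (Fin 2) K).val i j =
      (!![1, 0; -t, 1] : Matrix (Fin 2) (Fin 2) K) i j := fun t i j => rfl
  have l2 : ∀ t : K, ∀ i j, (loE t : GL (Fin 2) K).val i j =
      (!![1, 0; t, 1] : Matrix (Fin 2) (Fin 2) K) i j := fun t i j => rfl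
  simp only [mul_entry, u1, u2, l1, l2, one_mul, inv_one, mul_one] at h0 h1 h2 h3 h4
  simp at h0 h1 h2 h3 h4
  obtain ⟨h0a, h0b, h0c⟩ := h0
  obtain ⟨h1a, h1b, h1c⟩ := h1
  obtain ⟨h2a, h2b, h2c⟩ := h2
  obtain ⟨h3a, h3b, h3c⟩ := h3
  obtain ⟨h4a, h4b, h4c⟩ := h4
  generalize hA : (a : Matrix (Fin 2) (Fin 2) K) 0 1 = A at *
  generalize hB : (a : Matrix (Fin 2) (Fin 2) K) 1 0 = B at *
  generalize hp : (b : Matrix (Fin 2) (Fin 2) K) 0 1 = p at *
  generalize hq : (b : Matrix (Fin 2) (Fin 2) K) 1 0 = q at *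
  generalize hx : (a : Matrix (Fin 2) (Fin 2) K) 0 0 = x at *
  generalize hy : (a : Matrix (Fin 2) (Fin 2) K) 1 1 = y at *
  generalize hz : (b : Matrix (Fin 2) (Fin 2) K) 0 0 = z at *
  generalize hw : (b : Matrix (Fin 2) (Fin 2) K) 1 1 = w at *
  have two : (2 : K) ≠ 0 := two_ne_zero
  have Bq : B * q = 0 := by
    apply mul_left_cancel₀ two
    linear_combination h1a + h2a - 2 * h0a
  have Br : B * (z - w) = 0 := by
    apply mul_left_cancel₀ two
    linear_combination h1a - h2a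
  have Cq : (x - y) * q = 0 := by
    linear_combination -h0c + Br
  have Ap : A * p = 0 := by
    apply mul_left_cancel₀ two
    linear_combination 2 * h0a - h3a - h4a
  have Ar : A * (z - w) = 0 := by
    apply mul_left_cancel₀ two
    linear_combination h3a - h4a
  have Cp : (x - y) * p = 0 := by
    linear_combination -h0b + Ar
  have e1 : 2 * (A * q) + (x - y) * (z - w) = 0 := by
    linear_combination h1b - h0b - Cq
  have e2 : 2 * (B * p) + (x - y) * (z - w) = 0 := by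
    linear_combination h0c - h3c + Cp
  unfold sc
  rw [hA, hB, hp, hq, hx, hy, hz, hw]
  by_cases hq0 : q = 0
  · by_cases hp0 : p = 0
    · by_cases hr0 : z = w
      · exact Or.inr ⟨hp0, hq0, hr0⟩
      · left
        have hr : z - w ≠ 0 := sub_ne_zero.mpr hr0
        refine ⟨(mul_eq_zero.mp Ar).resolve_right hr, (mul_eq_zero.mp Br).resolve_right hr, ?_⟩
        rw [hq0, mul_zero, mul_zero, zero_add] at e1
        exact sub_eq_zero.mp ((mul_eq_zero.mp e1).resolve_right hr)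
    · left
      have hC := (mul_eq_zero.mp Cp).resolve_right hp0
      refine ⟨(mul_eq_zero.mp Ap).resolve_right hp0, ?_, sub_eq_zero.mp hC⟩
      rw [hC, zero_mul, add_zero] at e2
      exact (mul_eq_zero.mp ((mul_eq_zero.mp e2).resolve_left two)).resolve_right hp0
  · left
    have hC := (mul_eq_zero.mp Cq).resolve_right hq0
    refine ⟨?_, (mul_eq_zero.mp Bq).resolve_right hq0, sub_eq_zero.mp hC⟩
    rw [hC, zero_mul, add_zero] at e1
    exact (mul_eq_zero.mp ((mul_eq_zero.mp e1).resolve_left two)).resolve_right hq0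

/-! ### Abstract automorphisms of `GL_2^4` -/

/-- the inclusion of the `i`-th factor -/
abbrev ι {r : ℕ} (i : Fin r) : GL (Fin 2) K →* GLr K 2 r :=
  MonoidHom.mulSingle (fun _ : Fin r => GL (Fin 2) K) i

theorem ι_same {r : ℕ} (i : Fin r) (u : GL (Fin 2) K) : (ι i u : GLr K 2 r) i = u := by
  simp [ι]

theorem ι_other {r : ℕ} {i k : Fin r} (h : k ≠ i) (u : GL (Fin 2) K) :
    (ι i u : GLr K 2 r) k = 1 := by
  simp [ι, Pi.mulSingle_eq_of_ne h]

theorem ι_comm {r : ℕ} {i j : Fin r} (h : i ≠ j) (u v : GL (Fin 2) K) :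
    (ι i u : GLr K 2 r) * ι j v = ι j v * ι i u :=
  Pi.mulSingle_commute (f := fun _ : Fin r => GL (Fin 2) K) h u v

/-- the coordinates of `σ (ι i u)` are all scalar iff `u` is. -/
theorem sc_iff_all [CharZero K] {r : ℕ} (σ : GLr K 2 r ≃* GLr K 2 r) (i : Fin r)
    (u : GL (Fin 2) K) : sc u ↔ ∀ k, sc (σ (ι i u) k) := by
  constructor
  · intro hu k
    apply sc_of_comm
    intro x
    have h1 : ι i u * σ.symm (ι k x) = σ.symm (ι k x) * ι i u := by
      funext l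
      rw [Pi.mul_apply, Pi.mul_apply]
      by_cases hl : l = i
      · subst hl
        rw [ι_same]
        exact hu.comm _
      · rw [ι_other hl]; simp
    have h2 := congrArg σ h1
    rw [map_mul, map_mul, σ.apply_symm_apply] at h2
    have h3 := congrFun h2 k
    rwa [Pi.mul_apply, Pi.mul_apply, ι_same] at h3
  · intro hall
    apply sc_of_comm
    intro x
    have h1 : σ (ι i u) * σ (ι i x) = σ (ι i x) * σ (ι i u) := by
      funext l
      rw [Pi.mul_apply, Pi.mul_apply]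
      exact (hall l).comm _
    rw [← map_mul σ, ← map_mul σ] at h1
    have h2 := congrFun (σ.injective h1) i
    rwa [Pi.mul_apply, Pi.mul_apply, ι_same, ι_same] at h2

/-- disjointness of supports -/
theorem disj [CharZero K] {r : ℕ} (σ : GLr K 2 r ≃* GLr K 2 r) {i j : Fin r} (hij : i ≠ j)
    (u v : GL (Fin 2) K) (k : Fin r) : sc (σ (ι i u) k) ∨ sc (σ (ι j v) k) := by
  apply key
  intro c
  obtain ⟨g, hg⟩ := σ.surjective (ι k c)
  have h1 : ι i u * (g * ι j v * g⁻¹) = (g * ι j v * g⁻¹) * ι i u := by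
    funext l
    simp only [Pi.mul_apply, Pi.inv_apply]
    by_cases hl : l = j
    · subst hl
      rw [ι_other (Ne.symm hij)]; simp
    · rw [ι_other hl]; simp
  have h2 := congrFun (congrArg σ h1) k
  simp only [map_mul, map_inv, hg, Pi.mul_apply, Pi.inv_apply, ι_same] at h2
  exact h2

/-- the permutation of the factors induced by an automorphism -/
theorem exists_perm [CharZero K] {r : ℕ} (σ : GLr K 2 r ≃* GLr K 2 r) :
    ∃ π : Fin r → Fin r, Function.Injective π ∧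
      ∀ i u k, k ≠ π i → sc (σ (ι i u) k) := by
  have hns : ¬ sc (upE (1 : K)) := by
    intro h
    have := h.1
    simp [upE] at this
  have hex : ∀ i : Fin r, ∃ k, ¬ sc (σ (ι i (upE (1 : K))) k) := by
    intro i
    by_contra hcon
    push Not at hcon
    exact hns ((sc_iff_all σ i _).mpr hcon)
  choose π hπ using hex
  have hinj : Function.Injective π := by
    intro i j hij
    by_contra hne
    rcases disj σ hne (upE 1) (upE 1) (π i) with h | h
    · exact hπ i h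
    · rw [hij] at h
      exact hπ j h
  refine ⟨π, hinj, ?_⟩
  intro i u k hk
  obtain ⟨j, hj⟩ := (Finite.injective_iff_surjective.mp hinj) k
  have hij : i ≠ j := by
    rintro rfl
    exact hk hj.symm
  rcases disj σ hij u (upE 1) k with h | h
  · exact h
  · rw [← hj] at h
    exact absurd h (hπ j)

/-- commutators -/
def IsC (u : GL (Fin 2) K) : Prop := ∃ v w : GL (Fin 2) K, u = v * w * v⁻¹ * w⁻¹

theorem IsC.inv {u : GL (Fin 2) K} (hu : IsC u) : IsC u⁻¹ := by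
  obtain ⟨v, w, rfl⟩ := hu
  exact ⟨w, v, by group⟩

theorem comm_other {r : ℕ} (σ : GLr K 2 r ≃* GLr K 2 r) (π : Fin r → Fin r)
    (hπ : ∀ i u k, k ≠ π i → sc (σ (ι i u) k)) {u : GL (Fin 2) K} (hu : IsC u)
    {i k : Fin r} (hk : k ≠ π i) : σ (ι i u) k = 1 := by
  obtain ⟨v, w, rfl⟩ := hu
  have h1 := (hπ i v k hk).comm (σ (ι i w) k)
  simp only [map_mul, map_inv, Pi.mul_apply, Pi.inv_apply]
  rw [h1]
  group

theorem mem_X4 {h : GLr K 2 4} :
    h ∈ X (fun _ => 1 : Fin 5 → GL (Fin 2) K) ↔ h 0 * h 1 * h 2 * h 3 = 1 := by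
  simp [X, List.ofFn_succ, mul_assoc]

theorem mem_X4_support {h : GLr K 2 4} (hX : h ∈ X (fun _ => 1 : Fin 5 → GL (Fin 2) K))
    {a b : Fin 4} (hab : a ≠ b) (hk : ∀ k, k ≠ a → k ≠ b → h k = 1) : h a * h b = 1 := by
  rw [mem_X4] at hX
  have h0 := hk 0
  have h1 := hk 1
  have h2 := hk 2
  have h3 := hk 3
  fin_cases a <;> fin_cases b <;> simp at hab h0 h1 h2 h3 ⊢ <;> simp_all <;>
    first
      | exact hX
      | exact mul_eq_one_comm.mp hX

theorem comm_eq {σ : GLr K 2 4 ≃* GLr K 2 4}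
    (hX : σ '' X (fun _ => 1 : Fin 5 → GL (Fin 2) K) = X (fun _ => 1 : Fin 5 → GL (Fin 2) K))
    (π : Fin 4 → Fin 4) (hinj : Function.Injective π)
    (hπ : ∀ i u k, k ≠ π i → sc (σ (ι i u) k)) {u : GL (Fin 2) K} (hu : IsC u)
    {i j : Fin 4} (hij : i ≠ j) : σ (ι i u) (π i) = σ (ι j u) (π j) := by
  have hmem : (ι i u * ι j u⁻¹ : GLr K 2 4) ∈ X (fun _ => 1 : Fin 5 → GL (Fin 2) K) := by
    rw [mem_X4]
    fin_cases i <;> fin_cases j <;> simp at hij ⊢
  have hmem' : σ (ι i u * ι j u⁻¹) ∈ X (fun _ => 1 : Fin 5 → GL (Fin 2) K) := by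
    rw [← hX]
    exact ⟨_, hmem, rfl⟩
  have hne : π i ≠ π j := fun h => hij (hinj h)
  have h1 := mem_X4_support hmem' hne (by
    intro k hki hkj
    rw [map_mul, Pi.mul_apply, comm_other σ π hπ hu hki, comm_other σ π hπ hu.inv hkj, one_mul])
  rw [map_mul, Pi.mul_apply, Pi.mul_apply, comm_other σ π hπ hu.inv hne,
    comm_other σ π hπ hu hne.symm, mul_one, one_mul, map_inv, map_inv, Pi.inv_apply] at h1
  exact mul_inv_eq_one.mp h1

/-! ### The special elements -/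

/-- `s(ζ) = (0 ζ; -ζ⁻¹ 0)` -/
def sG (ζ : Kˣ) : GL (Fin 2) K where
  val := !![0, (ζ : K); -((ζ⁻¹ : Kˣ) : K), 0]
  inv := !![0, -(ζ : K); ((ζ⁻¹ : Kˣ) : K), 0]
  val_inv := by ext i j; fin_cases i <;> fin_cases j <;> simp
  inv_val := by ext i j; fin_cases i <;> fin_cases j <;> simp

theorem sG_val (ζ : Kˣ) : (sG ζ : Matrix (Fin 2) (Fin 2) K) =
    !![0, (ζ : K); -((ζ⁻¹ : Kˣ) : K), 0] := rfl

/-- `1 + s(ζ)` -/
def vG [CharZero K] (ζ : Kˣ) : GL (Fin 2) K where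
  val := !![1, (ζ : K); -((ζ⁻¹ : Kˣ) : K), 1]
  inv := !![1 / 2, -(ζ : K) / 2; ((ζ⁻¹ : Kˣ) : K) / 2, 1 / 2]
  val_inv := by
    ext i j; fin_cases i <;> fin_cases j <;> simp <;> ring_nf <;> simp <;> norm_num
  inv_val := by
    ext i j; fin_cases i <;> fin_cases j <;> simp <;> ring_nf <;> simp <;> norm_num

/-- `diag (1,-1)` -/
def wG : GL (Fin 2) K where
  val := !![1, 0; 0, -1]
  inv := !![1, 0; 0, -1]
  val_inv := by ext i j; fin_cases i <;> fin_cases j <;> simp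
  inv_val := by ext i j; fin_cases i <;> fin_cases j <;> simp

theorem sG_isC [CharZero K] (ζ : Kˣ) : IsC (sG ζ) := by
  refine ⟨vG ζ, wG, ?_⟩
  rw [eq_mul_inv_iff_mul_eq, eq_mul_inv_iff_mul_eq]
  apply gl_ext <;> simp only [mul_entry] <;> simp [sG, vG, wG]

theorem sG_sq (ζ : Kˣ) : sc (sG ζ * sG ζ) := by
  refine ⟨?_, ?_, ?_⟩ <;> simp only [mul_entry] <;> simp [sG]

theorem sG_not_sc (ζ : Kˣ) : ¬ sc (sG ζ) := by
  intro h
  have := h.1
  simp [sG] at this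

theorem pow_entries1 (ζ : Kˣ) (k : ℕ) :
    (((sG 1 * sG ζ) ^ k : GL (Fin 2) K) : Matrix (Fin 2) (Fin 2) K) =
      Matrix.diagonal ![(-((ζ⁻¹ : Kˣ) : K)) ^ k, (-(ζ : K)) ^ k] := by
  have h1 : ((sG 1 * sG ζ : GL (Fin 2) K) : Matrix (Fin 2) (Fin 2) K) =
      Matrix.diagonal ![(-((ζ⁻¹ : Kˣ) : K)), (-(ζ : K))] := by
    ext i j
    rw [mul_entry]
    fin_cases i <;> fin_cases j <;> simp [sG]
  rw [Units.val_pow_eq_pow_val, h1, Matrix.diagonal_pow]
  congr 1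
  funext i
  fin_cases i <;> simp

theorem pow_entries2 (ζ : Kˣ) (k : ℕ) :
    (((sG ζ * sG 1) ^ k : GL (Fin 2) K) : Matrix (Fin 2) (Fin 2) K) =
      Matrix.diagonal ![(-(ζ : K)) ^ k, (-((ζ⁻¹ : Kˣ) : K)) ^ k] := by
  have h1 : ((sG ζ * sG 1 : GL (Fin 2) K) : Matrix (Fin 2) (Fin 2) K) =
      Matrix.diagonal ![(-(ζ : K)), (-((ζ⁻¹ : Kˣ) : K))] := by
    ext i j
    rw [mul_entry]
    fin_cases i <;> fin_cases j <;> simp [sG]
  rw [Units.val_pow_eq_pow_val, h1, Matrix.diagonal_pow]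
  congr 1
  funext i
  fin_cases i <;> simp

theorem pow_aux (ζ : Kˣ) (k : ℕ) :
    (-((ζ⁻¹ : Kˣ) : K)) ^ k = (-(ζ : K)) ^ k ↔ ζ ^ (2 * k) = 1 := by
  have h1 : (-((ζ⁻¹ : Kˣ) : K)) ^ k = (-1) ^ k * ((ζ⁻¹ : Kˣ) : K) ^ k := by
    rw [← mul_pow]; ring
  have h2 : (-(ζ : K)) ^ k = (-1) ^ k * (ζ : K) ^ k := by
    rw [← mul_pow]; ring
  have h3 : ((-1 : K)) ^ k ≠ 0 := pow_ne_zero _ (by norm_num)
  rw [h1, h2, mul_right_inj' h3]
  rw [← Units.val_pow_eq_pow_val, ← Units.val_pow_eq_pow_val, Units.val_inj, inv_pow,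
    inv_eq_iff_mul_eq_one, ← pow_add, two_mul]

theorem pow_sc1 (ζ : Kˣ) (k : ℕ) : sc ((sG 1 * sG ζ) ^ k) ↔ ζ ^ (2 * k) = 1 := by
  unfold sc
  rw [pow_entries1, ← pow_aux]
  simp

theorem pow_sc2 (ζ : Kˣ) (k : ℕ) : sc ((sG ζ * sG 1) ^ k) ↔ ζ ^ (2 * k) = 1 := by
  unfold sc
  rw [pow_entries2, ← pow_aux]
  simp [eq_comm]

/-! ### Diagonal matrices and their conjugates -/

/-- diagonal matrices -/
def D : (Fin 2 → Kˣ) →* GL (Fin 2) K where
  toFun x :=
    { val := !![(x 0 : K), 0; 0, (x 1 : K)]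
      inv := !![((x 0)⁻¹ : Kˣ), 0; 0, ((x 1)⁻¹ : Kˣ)]
      val_inv := by ext i j; fin_cases i <;> fin_cases j <;> simp
      inv_val := by ext i j; fin_cases i <;> fin_cases j <;> simp }
  map_one' := by apply gl_ext <;> simp
  map_mul' x y := by apply gl_ext <;> simp only [mul_entry] <;> simp

theorem D_val (x : Fin 2 → Kˣ) : (D x : Matrix (Fin 2) (Fin 2) K) =
    !![(x 0 : K), 0; 0, (x 1 : K)] := rfl

/-- conjugates of diagonal matrices -/
def cD (p : GL (Fin 2) K) : (Fin 2 → Kˣ) →* GL (Fin 2) K := (MulAut.conj p).toMonoidHom.comp D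

theorem cD_apply (p : GL (Fin 2) K) (x : Fin 2 → Kˣ) : cD p x = p * D x * p⁻¹ := rfl

theorem cD_comm (p : GL (Fin 2) K) (x y : Fin 2 → Kˣ) : cD p x * cD p y = cD p y * cD p x := by
  rw [← map_mul, ← map_mul, mul_comm]

theorem D_sc (x : Fin 2 → Kˣ) : sc (D x) ↔ x 0 = x 1 := by
  unfold sc
  simp [D_val, Units.val_inj]

theorem cD_of_eq (p : GL (Fin 2) K) {x : Fin 2 → Kˣ} (h : x 0 = x 1) : cD p x = D x := by
  rw [cD_apply, ← ((D_sc x).mpr h).comm p, mul_inv_cancel_right]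

theorem sc_conj {p g : GL (Fin 2) K} (h : sc (p * g * p⁻¹)) : sc g := by
  have h1 := h.comm p
  have h2 : g = p * g * p⁻¹ := by
    have : p * g = p * (p * g * p⁻¹) := by rw [← h1]; group
    exact mul_left_cancel this
  rw [h2]
  exact h

theorem cD_sc (p : GL (Fin 2) K) (x : Fin 2 → Kˣ) : sc (cD p x) ↔ x 0 = x 1 := by
  constructor
  · intro h
    exact (D_sc x).mp (sc_conj h)
  · intro h
    rw [cD_of_eq p h]
    exact (D_sc x).mpr h

theorem D_inj {x y : Fin 2 → Kˣ} (h : D x = D y) : x = y := by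
  have h0 : (D x : Matrix (Fin 2) (Fin 2) K) = D y := by rw [h]
  have e0 := congrFun (congrFun h0 0) 0
  have e1 := congrFun (congrFun h0 1) 1
  simp [D_val] at e0 e1
  funext i
  fin_cases i
  · exact Units.val_inj.mp e0
  · exact Units.val_inj.mp e1

theorem cD_inj {p : GL (Fin 2) K} {x y : Fin 2 → Kˣ} (h : cD p x = cD p y) : x = y :=
  D_inj ((MulAut.conj p).injective h)

theorem exists_D {a : GL (Fin 2) K} (h01 : (a : Matrix (Fin 2) (Fin 2) K) 0 1 = 0)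
    (h10 : (a : Matrix (Fin 2) (Fin 2) K) 1 0 = 0) : ∃ x, a = D x := by
  have h : a * a⁻¹ = 1 := mul_inv_cancel a
  have e : ∀ i j, ((a * a⁻¹ : GL (Fin 2) K) : Matrix (Fin 2) (Fin 2) K) i j =
      (1 : Matrix (Fin 2) (Fin 2) K) i j := by
    intro i j; rw [h]; rfl
  have e0 := e 0 0
  have e1 := e 1 1
  rw [mul_entry, h01, zero_mul, add_zero] at e0
  rw [mul_entry, h10, zero_mul, zero_add] at e1
  have n0 : (a : Matrix (Fin 2) (Fin 2) K) 0 0 ≠ 0 := by
    intro h0; rw [h0] at e0; simp at e0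
  have n1 : (a : Matrix (Fin 2) (Fin 2) K) 1 1 ≠ 0 := by
    intro h0; rw [h0] at e1; simp at e1
  refine ⟨![Units.mk0 _ n0, Units.mk0 _ n1], ?_⟩
  apply gl_ext <;> simp [D_val, h01, h10]

/-- the matrix `P(ζ)` whose columns are the eigenvectors of `s(ζ)`; here `I² = -1`. -/
def P [CharZero K] (I : Kˣ) (hI : (I : K) * I = -1) (ζ : Kˣ) : GL (Fin 2) K where
  val := !![1, 1; (I : K) * ((ζ⁻¹ : Kˣ) : K), -((I : K) * ((ζ⁻¹ : Kˣ) : K))]
  inv := !![1 / 2, -((I : K) * (ζ : K) / 2); 1 / 2, (I : K) * (ζ : K) / 2]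
  val_inv := by
    have h : (ζ : K) * ((ζ⁻¹ : Kˣ) : K) = 1 := by simp
    ext i j; fin_cases i <;> fin_cases j <;> simp only [Matrix.mul_apply, Fin.sum_univ_two] <;>
      simp <;> field_simp <;>
      first
        | linear_combination (-2 : K) * hI
        | linear_combination (-1 : K) * hI
        | linear_combination hI
        | ring1
  inv_val := by
    have h : (ζ : K) * ((ζ⁻¹ : Kˣ) : K) = 1 := by simp
    ext i j; fin_cases i <;> fin_cases j <;> simp only [Matrix.mul_apply, Fin.sum_univ_two] <;>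
      simp <;> field_simp <;>
      first
        | linear_combination (-2 : K) * hI
        | linear_combination (-1 : K) * hI
        | linear_combination hI

theorem cD_P [CharZero K] (I : Kˣ) (hI : (I : K) * I = -1) (ζ : Kˣ) :
    cD (P I hI ζ) ![I, -I] = sG ζ := by
  rw [cD_apply, mul_inv_eq_iff_eq_mul]
  have h : (ζ : K) * (ζ : K)⁻¹ = 1 := by simp
  apply gl_ext <;> simp only [mul_entry] <;> simp [P, sG, D_val] <;>
    first
      | linear_combination (ζ : K)⁻¹ * hI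
      | linear_combination (-(I : K)) * h

/-- an element commuting with `s(ζ)` is a conjugated diagonal matrix -/
theorem exists_cD [CharZero K] (I : Kˣ) (hI : (I : K) * I = -1) (ζ : Kˣ) {g : GL (Fin 2) K}
    (h : g * sG ζ = sG ζ * g) : ∃ x, g = cD (P I hI ζ) x := by
  rw [← cD_P I hI ζ] at h
  set p := P I hI ζ
  have h1 : (p⁻¹ * g * p) * D ![I, -I] = D ![I, -I] * (p⁻¹ * g * p) := by
    have h2 : p⁻¹ * (g * cD p ![I, -I]) * p = p⁻¹ * (cD p ![I, -I] * g) * p := by rw [h]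
    rw [cD_apply] at h2
    simpa [mul_assoc] using h2
  obtain ⟨e1, e2, e3⟩ := comm_rel h1
  simp [D_val] at e2 e3
  obtain ⟨x, hx⟩ := exists_D (a := p⁻¹ * g * p) (by simpa using e2) (by simpa using e3)
  refine ⟨x, ?_⟩
  rw [cD_apply, ← hx]
  group

/-- an element commuting with `s(1)` and with `s(ζ)` is scalar. -/
theorem sc_of_comm_two [CharZero K] {ζ : Kˣ} (hζ : ζ ^ 2 ≠ 1) {g : GL (Fin 2) K}
    (h1 : g * sG 1 = sG 1 * g) (h2 : g * sG ζ = sG ζ * g) : sc g := by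
  obtain ⟨a1, a2, a3⟩ := comm_rel h1
  obtain ⟨b1, b2, b3⟩ := comm_rel h2
  simp [sG_val] at a1 a2 a3 b1 b2 b3
  have hz : (ζ : K) * ((ζ⁻¹ : Kˣ) : K) = 1 := by simp
  have hne : (ζ : K) ^ 2 - 1 ≠ 0 := by
    intro h0
    apply hζ
    apply Units.ext
    rw [Units.val_pow_eq_pow_val, Units.val_one]
    linear_combination h0
  have hc : (g : Matrix (Fin 2) (Fin 2) K) 1 0 * ((ζ : K) ^ 2 - 1) = 0 := by
    have e1 : -((g : Matrix (Fin 2) (Fin 2) K) 0 1) =
        (g : Matrix (Fin 2) (Fin 2) K) 1 0 * (ζ : K) ^ 2 := by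
      have : -((g : Matrix (Fin 2) (Fin 2) K) 0 1 * ((ζ⁻¹ : Kˣ) : K)) * ζ =
        (g : Matrix (Fin 2) (Fin 2) K) 1 0 * (ζ : K) * ζ := by rw [← b1]; simp
      linear_combination this + (g : Matrix (Fin 2) (Fin 2) K) 0 1 * hz
    linear_combination a1 - e1
  have h10 := (mul_eq_zero.mp hc).resolve_right hne
  refine ⟨?_, h10, ?_⟩
  · rw [h10] at a1
    simpa using a1
  · exact sub_eq_zero.mp b2

/-! ### The tori -/

/-- the parametrization of the torus `T(p,q)` -/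
def eHom (p q : GL (Fin 2) K) : (Fin 5 → Kˣ) →* GLr K 2 4 where
  toFun t := ![cD p ![t 0, t 1], cD q ![t 2, t 3], cD q ![t 4 * (t 2)⁻¹, t 4 * (t 3)⁻¹],
    cD p ![(t 4)⁻¹ * (t 0)⁻¹, (t 4)⁻¹ * (t 1)⁻¹]]
  map_one' := by
    have h1 : (![1, 1] : Fin 2 → Kˣ) = 1 := by funext i; fin_cases i <;> rfl
    funext k
    fin_cases k <;> simp [h1]
  map_mul' s t := by
    funext k
    fin_cases k <;> simp <;> rw [← map_mul] <;> congr 1 <;> funext i <;> fin_cases i <;>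
      simp <;> ac_rfl

theorem eHom_0 (p q : GL (Fin 2) K) (t : Fin 5 → Kˣ) : eHom p q t 0 = cD p ![t 0, t 1] := rfl
theorem eHom_1 (p q : GL (Fin 2) K) (t : Fin 5 → Kˣ) : eHom p q t 1 = cD q ![t 2, t 3] := rfl
theorem eHom_2 (p q : GL (Fin 2) K) (t : Fin 5 → Kˣ) :
    eHom p q t 2 = cD q ![t 4 * (t 2)⁻¹, t 4 * (t 3)⁻¹] := rfl
theorem eHom_3 (p q : GL (Fin 2) K) (t : Fin 5 → Kˣ) :
    eHom p q t 3 = cD p ![(t 4)⁻¹ * (t 0)⁻¹, (t 4)⁻¹ * (t 1)⁻¹] := rfl

theorem eHom_mem_X (p q : GL (Fin 2) K) (t : Fin 5 → Kˣ) :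
    eHom p q t 0 * eHom p q t 1 * eHom p q t 2 * eHom p q t 3 = 1 := by
  rw [eHom_0, eHom_1, eHom_2, eHom_3, mul_assoc (cD p _), ← map_mul (cD q)]
  have h1 : (![t 2, t 3] * ![t 4 * (t 2)⁻¹, t 4 * (t 3)⁻¹] : Fin 2 → Kˣ) = ![t 4, t 4] := by
    funext i; fin_cases i <;> simp
  rw [h1, cD_of_eq q (by simp), ← cD_of_eq p (x := ![t 4, t 4]) (by simp), ← map_mul, ← map_mul]
  have h2 : (![t 0, t 1] * ![t 4, t 4] * ![(t 4)⁻¹ * (t 0)⁻¹, (t 4)⁻¹ * (t 1)⁻¹] : Fin 2 → Kˣ)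
      = 1 := by
    funext i; fin_cases i <;> simp [mul_assoc]
  rw [h2, map_one]

theorem eHom_injective (p q : GL (Fin 2) K) : Function.Injective (eHom p q) := by
  intro s t h
  have h0 := cD_inj (congrFun h 0 : cD p ![s 0, s 1] = cD p ![t 0, t 1])
  have h1 := cD_inj (congrFun h 1 : cD q ![s 2, s 3] = cD q ![t 2, t 3])
  have h2 := cD_inj (congrFun h 2 : cD q ![s 4 * (s 2)⁻¹, s 4 * (s 3)⁻¹] =
    cD q ![t 4 * (t 2)⁻¹, t 4 * (t 3)⁻¹])
  have e0 := congrFun h0 0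
  have e1 := congrFun h0 1
  have e2 := congrFun h1 0
  have e3 := congrFun h1 1
  have e4 := congrFun h2 0
  simp at e0 e1 e2 e3 e4
  rw [e2] at e4
  have e4' := mul_right_cancel e4
  funext i
  fin_cases i <;> assumption

section torus

variable [CharZero K] (I : Kˣ) (hI : (I : K) * I = -1)

/-- the torus `T(ζ)` -/
def Tor (ζ : Kˣ) : Subgroup (GLr K 2 4) := (eHom (P I hI 1) (P I hI ζ)).range

theorem mem_Tor {ζ : Kˣ} (hζ : ζ ^ 2 ≠ 1) (h : GLr K 2 4) :
    h ∈ Tor I hI ζ ↔ h 0 * sG 1 = sG 1 * h 0 ∧ h 3 * sG 1 = sG 1 * h 3 ∧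
      h 1 * sG ζ = sG ζ * h 1 ∧ h 2 * sG ζ = sG ζ * h 2 ∧ h 0 * h 1 * h 2 * h 3 = 1 := by
  constructor
  · rintro ⟨t, rfl⟩
    refine ⟨?_, ?_, ?_, ?_, eHom_mem_X _ _ _⟩
    · rw [← cD_P I hI 1]; exact cD_comm _ _ _
    · rw [← cD_P I hI 1]; exact cD_comm _ _ _
    · rw [← cD_P I hI ζ]; exact cD_comm _ _ _
    · rw [← cD_P I hI ζ]; exact cD_comm _ _ _
  · rintro ⟨c0, c3, c1, c2, hX⟩
    obtain ⟨x, hx⟩ := exists_cD I hI 1 c0
    obtain ⟨w, hw⟩ := exists_cD I hI 1 c3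
    obtain ⟨y, hy⟩ := exists_cD I hI ζ c1
    obtain ⟨z, hz⟩ := exists_cD I hI ζ c2
    have hg : cD (P I hI ζ) (y * z) = cD (P I hI 1) (x⁻¹ * w⁻¹) := by
      rw [map_mul, map_mul, map_inv, map_inv, ← hx, ← hw, ← hy, ← hz]
      rw [eq_mul_inv_iff_mul_eq]
      exact eq_inv_of_mul_eq_one_right (by rw [← hX]; simp only [mul_assoc])
    have hsc : sc (cD (P I hI ζ) (y * z)) := by
      apply sc_of_comm_two hζ
      · rw [hg, ← cD_P I hI 1]; exact cD_comm _ _ _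
      · rw [← cD_P I hI ζ]; exact cD_comm _ _ _
    have h1 := (cD_sc _ _).mp hsc
    have h2 : (x⁻¹ * w⁻¹) 0 = (x⁻¹ * w⁻¹) 1 := (cD_sc _ _).mp (hg ▸ hsc)
    rw [cD_of_eq _ h1, cD_of_eq _ h2] at hg
    have h3 := D_inj hg
    have h30 := congrFun h3 0
    have h31 := congrFun h3 1
    simp only [Pi.mul_apply, Pi.inv_apply] at h30 h31 h1 h2
    refine ⟨![x 0, x 1, y 0, y 1, y 0 * z 0], ?_⟩
    funext k
    fin_cases k
    · show cD _ _ = h 0
      rw [hx]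
      congr 1
      funext i
      fin_cases i <;> simp
    · show cD _ _ = h 1
      rw [hy]
      congr 1
      funext i
      fin_cases i <;> simp
    · show cD _ _ = h 2
      rw [hz]
      congr 1
      funext i
      fin_cases i
      · simp
      · simp [h1]
    · show cD _ _ = h 3
      rw [hw]
      congr 1
      funext i
      fin_cases i
      · simp [h30]
      · simp [h1, h31]

end torus

/-! ### Regular functions -/

/-- matrices whose entries lie in an algebra of functions -/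
def EM {α : Type*} (S : Subalgebra K (α → K)) (A : α → GL (Fin 2) K) : Prop :=
  ∀ i j, (fun h => (A h : Matrix (Fin 2) (Fin 2) K) i j) ∈ S

theorem EM.mul {α : Type*} {S : Subalgebra K (α → K)} {A B : α → GL (Fin 2) K}
    (hA : EM S A) (hB : EM S B) : EM S (fun h => A h * B h) := by
  intro i j
  have : (fun h => ((A h * B h : GL (Fin 2) K) : Matrix (Fin 2) (Fin 2) K) i j) =
      (fun h => (A h : Matrix (Fin 2) (Fin 2) K) i 0) *
        (fun h => (B h : Matrix (Fin 2) (Fin 2) K) 0 j) +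
      (fun h => (A h : Matrix (Fin 2) (Fin 2) K) i 1) *
        (fun h => (B h : Matrix (Fin 2) (Fin 2) K) 1 j) := by
    funext h
    rw [mul_entry]
    rfl
  rw [this]
  exact S.add_mem (S.mul_mem (hA i 0) (hB 0 j)) (S.mul_mem (hA i 1) (hB 1 j))

theorem EM.const {α : Type*} {S : Subalgebra K (α → K)} (g : GL (Fin 2) K) :
    EM S (fun _ => g) := fun i j => S.algebraMap_mem ((g : Matrix (Fin 2) (Fin 2) K) i j)

theorem EM_coord {r : ℕ} (k : Fin r) : EM (regular K 2 r) (fun h => h k) := by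
  intro i j
  exact Algebra.subset_adjoin (Or.inl ⟨k, i, j, rfl⟩)

theorem EM_coord_inv {r : ℕ} (k : Fin r) : EM (regular K 2 r) (fun h => (h k)⁻¹) := by
  intro i j
  exact Algebra.subset_adjoin (Or.inr ⟨k, i, j, rfl⟩)

theorem regular_pullback {n r : ℕ} {α : Type*} (S : Subalgebra K (α → K)) (φ : α → GLr K n r)
    (h1 : ∀ k i j, (fun t => (φ t k : Matrix (Fin n) (Fin n) K) i j) ∈ S)
    (h2 : ∀ k i j, (fun t => (((φ t k)⁻¹ : GL (Fin n) K) : Matrix (Fin n) (Fin n) K) i j) ∈ S) :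
    ∀ f ∈ regular K n r, (fun t => f (φ t)) ∈ S := by
  intro f hf
  induction hf using Algebra.adjoin_induction with
  | mem f hf =>
    rcases hf with ⟨k, i, j, rfl⟩ | ⟨k, i, j, rfl⟩
    · exact h1 k i j
    · exact h2 k i j
  | algebraMap c => exact S.algebraMap_mem c
  | add f g _ _ hf hg => exact S.add_mem hf hg
  | mul f g _ _ hf hg => exact S.mul_mem hf hg

/-- functions with values in `Kˣ` which are Laurent polynomials together with their inverses -/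
def MU {d : ℕ} (u : (Fin d → Kˣ) → Kˣ) : Prop :=
  (fun t => (u t : K)) ∈ laurent K d ∧ (fun t => (((u t)⁻¹ : Kˣ) : K)) ∈ laurent K d

theorem MU_coord {d : ℕ} (i : Fin d) : MU (fun t : Fin d → Kˣ => t i) :=
  ⟨Algebra.subset_adjoin (Or.inl ⟨i, rfl⟩), Algebra.subset_adjoin (Or.inr ⟨i, rfl⟩)⟩

theorem MU.mul {d : ℕ} {u v : (Fin d → Kˣ) → Kˣ} (hu : MU u) (hv : MU v) :
    MU (fun t => u t * v t) := by
  constructor
  · have : (fun t => ((u t * v t : Kˣ) : K)) = (fun t => (u t : K)) * (fun t => (v t : K)) := by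
      funext t; simp
    rw [this]
    exact Subalgebra.mul_mem _ hu.1 hv.1
  · have : (fun t => (((u t * v t)⁻¹ : Kˣ) : K)) =
        (fun t => (((u t)⁻¹ : Kˣ) : K)) * (fun t => (((v t)⁻¹ : Kˣ) : K)) := by
      funext t; simp [mul_comm]
    rw [this]
    exact Subalgebra.mul_mem _ hu.2 hv.2

theorem MU.inv {d : ℕ} {u : (Fin d → Kˣ) → Kˣ} (hu : MU u) : MU (fun t => (u t)⁻¹) :=
  ⟨hu.2, by simpa using hu.1⟩

theorem EM_cD {d : ℕ} (p : GL (Fin 2) K) {u v : (Fin d → Kˣ) → Kˣ} (hu : MU u) (hv : MU v) :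
    EM (laurent K d) (fun t => cD p ![u t, v t]) := by
  have h : EM (laurent K d) (fun t => D ![u t, v t]) := by
    intro i j
    fin_cases i <;> fin_cases j
    · exact hu.1
    · exact Subalgebra.zero_mem _
    · exact Subalgebra.zero_mem _
    · exact hv.1
  exact ((EM.const p).mul h).mul (EM.const p⁻¹)

theorem cD_inv (p : GL (Fin 2) K) (a b : Kˣ) : (cD p ![a, b])⁻¹ = cD p ![a⁻¹, b⁻¹] := by
  rw [← map_inv]
  congr 1
  funext i
  fin_cases i <;> rfl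

theorem EM_eHom (p q : GL (Fin 2) K) (k : Fin 4) :
    EM (laurent K 5) (fun t => eHom p q t k) := by
  fin_cases k
  · exact EM_cD p (MU_coord 0) (MU_coord 1)
  · exact EM_cD q (MU_coord 2) (MU_coord 3)
  · exact EM_cD q ((MU_coord 4).mul (MU_coord 2).inv) ((MU_coord 4).mul (MU_coord 3).inv)
  · exact EM_cD p ((MU_coord 4).inv.mul (MU_coord 0).inv) ((MU_coord 4).inv.mul (MU_coord 1).inv)

theorem EM_eHom_inv (p q : GL (Fin 2) K) (k : Fin 4) :
    EM (laurent K 5) (fun t => (eHom p q t k)⁻¹) := by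
  fin_cases k
  · simp only [Fin.zero_eta, eHom_0, cD_inv]
    exact EM_cD p (MU_coord 0).inv (MU_coord 1).inv
  · simp only [Fin.mk_one, eHom_1, cD_inv]
    exact EM_cD q (MU_coord 2).inv (MU_coord 3).inv
  · simp only [Fin.reduceFinMk, eHom_2, cD_inv]
    exact EM_cD q ((MU_coord 4).mul (MU_coord 2).inv).inv ((MU_coord 4).mul (MU_coord 3).inv).inv
  · simp only [Fin.reduceFinMk, eHom_3, cD_inv]
    exact EM_cD p ((MU_coord 4).inv.mul (MU_coord 0).inv).inv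
      ((MU_coord 4).inv.mul (MU_coord 1).inv).inv

theorem conj_cD (p : GL (Fin 2) K) (x : Fin 2 → Kˣ) : p⁻¹ * cD p x * p = D x := by
  rw [cD_apply]; group

theorem conj_cD_inv (p : GL (Fin 2) K) (x : Fin 2 → Kˣ) : p⁻¹ * (cD p x)⁻¹ * p = D x⁻¹ := by
  rw [← map_inv, conj_cD]

/-- the coordinates of the torus are restrictions of regular functions -/
theorem coord_regular (p q : GL (Fin 2) K) (i : Fin 5) :
    ∃ f ∈ regular K 2 4, ∀ t, f (eHom p q t) = (t i : K) := by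
  fin_cases i
  · refine ⟨_, (((EM.const p⁻¹).mul (EM_coord 0)).mul (EM.const p)) 0 0, ?_⟩
    intro t
    simp only [eHom_0, conj_cD]; simp [D_val]
  · refine ⟨_, (((EM.const p⁻¹).mul (EM_coord 0)).mul (EM.const p)) 1 1, ?_⟩
    intro t
    simp only [eHom_0, conj_cD]; simp [D_val]
  · refine ⟨_, (((EM.const q⁻¹).mul (EM_coord 1)).mul (EM.const q)) 0 0, ?_⟩
    intro t
    simp only [eHom_1, conj_cD]; simp [D_val]
  · refine ⟨_, (((EM.const q⁻¹).mul (EM_coord 1)).mul (EM.const q)) 1 1, ?_⟩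
    intro t
    simp only [eHom_1, conj_cD]; simp [D_val]
  · refine ⟨_, (((EM.const q⁻¹).mul ((EM_coord 1).mul (EM_coord 2))).mul (EM.const q)) 0 0, ?_⟩
    intro t
    simp only [eHom_1, eHom_2, ← map_mul, conj_cD]
    show ((t 2 * (t 4 * (t 2)⁻¹) : Kˣ) : K) = ((t 4 : Kˣ) : K)
    congr 1
    rw [mul_comm (t 4), mul_inv_cancel_left]

theorem coord_inv_regular (p q : GL (Fin 2) K) (i : Fin 5) :
    ∃ f ∈ regular K 2 4, ∀ t, f (eHom p q t) = (((t i)⁻¹ : Kˣ) : K) := by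
  fin_cases i
  · refine ⟨_, (((EM.const p⁻¹).mul (EM_coord_inv 0)).mul (EM.const p)) 0 0, ?_⟩
    intro t
    simp only [eHom_0, conj_cD_inv]
    rfl
  · refine ⟨_, (((EM.const p⁻¹).mul (EM_coord_inv 0)).mul (EM.const p)) 1 1, ?_⟩
    intro t
    simp only [eHom_0, conj_cD_inv]
    rfl
  · refine ⟨_, (((EM.const q⁻¹).mul (EM_coord_inv 1)).mul (EM.const q)) 0 0, ?_⟩
    intro t
    simp only [eHom_1, conj_cD_inv]
    rfl
  · refine ⟨_, (((EM.const q⁻¹).mul (EM_coord_inv 1)).mul (EM.const q)) 1 1, ?_⟩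
    intro t
    simp only [eHom_1, conj_cD_inv]
    rfl
  · refine ⟨_, (((EM.const q⁻¹).mul ((EM_coord_inv 1).mul (EM_coord_inv 2))).mul
      (EM.const q)) 0 0, ?_⟩
    intro t
    simp only [eHom_1, eHom_2, ← map_inv, ← map_mul, conj_cD]
    show (((t 2)⁻¹ * (t 4 * (t 2)⁻¹)⁻¹ : Kˣ) : K) = (((t 4)⁻¹ : Kˣ) : K)
    congr 1
    rw [mul_inv, inv_inv, mul_comm (t 4)⁻¹, inv_mul_cancel_left]

theorem closed_aux {T : Subgroup (GLr K 2 4)} {A B : GLr K 2 4 → GL (Fin 2) K}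
    (hA : EM (regular K 2 4) A) (hB : EM (regular K 2 4) B) (hAB : ∀ h ∈ T, A h = B h)
    {h : GLr K 2 4} (hh : ∀ f ∈ {f | f ∈ regular K 2 4 ∧ ∀ h ∈ T, f h = 0}, f h = 0) :
    A h = B h := by
  apply Units.ext
  ext i j
  have := hh _ ⟨Subalgebra.sub_mem _ (hA i j) (hB i j), by
    intro h hh
    simp [hAB h hh]⟩
  simpa [sub_eq_zero] using this

section torus2

variable [CharZero K] (I : Kˣ) (hI : (I : K) * I = -1)

theorem Tor_closed {ζ : Kˣ} (hζ : ζ ^ 2 ≠ 1) :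
    ZariskiClosed (Tor I hI ζ : Set (GLr K 2 4)) := by
  refine ⟨{f | f ∈ regular K 2 4 ∧ ∀ h ∈ Tor I hI ζ, f h = 0}, fun f hf => hf.1, ?_⟩
  ext h
  constructor
  · intro hh f hf
    exact hf.2 h hh
  · intro hh
    show h ∈ Tor I hI ζ
    rw [mem_Tor I hI hζ]
    refine ⟨?_, ?_, ?_, ?_, ?_⟩
    · exact closed_aux (T := Tor I hI ζ) ((EM_coord 0).mul (EM.const (sG 1)))
        ((EM.const (sG 1)).mul (EM_coord 0)) (fun h hh => ((mem_Tor I hI hζ h).mp hh).1) hh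
    · exact closed_aux (T := Tor I hI ζ) ((EM_coord 3).mul (EM.const (sG 1)))
        ((EM.const (sG 1)).mul (EM_coord 3)) (fun h hh => ((mem_Tor I hI hζ h).mp hh).2.1) hh
    · exact closed_aux (T := Tor I hI ζ) ((EM_coord 1).mul (EM.const (sG ζ)))
        ((EM.const (sG ζ)).mul (EM_coord 1)) (fun h hh => ((mem_Tor I hI hζ h).mp hh).2.2.1) hh
    · exact closed_aux (T := Tor I hI ζ) ((EM_coord 2).mul (EM.const (sG ζ)))
        ((EM.const (sG ζ)).mul (EM_coord 2)) (fun h hh => ((mem_Tor I hI hζ h).mp hh).2.2.2.1) hh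
    · exact closed_aux (T := Tor I hI ζ)
        ((((EM_coord 0).mul (EM_coord 1)).mul (EM_coord 2)).mul (EM_coord 3))
        (EM.const 1) (fun h hh => ((mem_Tor I hI hζ h).mp hh).2.2.2.2) hh

theorem Tor_isTorus {ζ : Kˣ} (hζ : ζ ^ 2 ≠ 1) : IsTorus (Tor I hI ζ) := by
  refine ⟨Tor_closed I hI hζ, 5, MonoidHom.ofInjective (eHom_injective _ _), ?_, ?_⟩
  · exact regular_pullback (laurent K 5) (eHom (P I hI 1) (P I hI ζ))
      (fun k => EM_eHom _ _ k) (fun k => EM_eHom_inv _ _ k)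
  · intro g hg
    set e := MonoidHom.ofInjective (eHom_injective (P I hI 1) (P I hI ζ)) with he
    have key : ∀ g : (Fin 5 → Kˣ) → K,
        (∃ f ∈ regular K 2 4, ∀ t, f (eHom (P I hI 1) (P I hI ζ) t) = g t) →
        ∃ f ∈ regular K 2 4, ∀ h : Tor I hI ζ, f h = g (e.symm h) := by
      rintro g ⟨f, hf, hfg⟩
      refine ⟨f, hf, fun h => ?_⟩
      rw [← hfg]
      congr 1
      have := congrArg Subtype.val (e.apply_symm_apply h)
      rw [← this]
      rfl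
    apply key
    induction hg using Algebra.adjoin_induction with
    | mem g hg =>
      rcases hg with ⟨i, rfl⟩ | ⟨i, rfl⟩
      · exact coord_regular _ _ i
      · exact coord_inv_regular _ _ i
    | algebraMap c => exact ⟨_, Subalgebra.algebraMap_mem _ c, fun t => rfl⟩
    | add g g' _ _ hg hg' =>
      obtain ⟨f, hf, hfg⟩ := hg
      obtain ⟨f', hf', hfg'⟩ := hg'
      exact ⟨f + f', Subalgebra.add_mem _ hf hf', fun t => by simp [hfg, hfg']⟩
    | mul g g' _ _ hg hg' =>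
      obtain ⟨f, hf, hfg⟩ := hg
      obtain ⟨f', hf', hfg'⟩ := hg'
      exact ⟨f * f', Subalgebra.mul_mem _ hf hf', fun t => by simp [hfg, hfg']⟩

theorem tau_mem {ζ : Kˣ} (hζ : ζ ^ 2 ≠ 1) : ι 0 (sG 1) * ι 3 (sG 1)⁻¹ ∈ Tor I hI ζ := by
  rw [mem_Tor I hI hζ]
  simp

theorem rho_mem {ζ : Kˣ} (hζ : ζ ^ 2 ≠ 1) : ι 1 (sG ζ) * ι 2 (sG ζ)⁻¹ ∈ Tor I hI ζ := by
  rw [mem_Tor I hI hζ]
  simp

theorem Tor_maximal {ζ : Kˣ} (hζ : ζ ^ 2 ≠ 1) :
    IsMaximalTorusIn (X (fun _ => 1 : Fin 5 → GL (Fin 2) K)) (Tor I hI ζ) := by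
  refine ⟨Tor_isTorus I hI hζ, ?_, ?_⟩
  · intro h hh
    rw [mem_X4]
    exact ((mem_Tor I hI hζ h).mp hh).2.2.2.2
  · intro T' hT' hX hle
    obtain ⟨-, d, e, -, -⟩ := hT'
    have hcomm : ∀ a ∈ T', ∀ b ∈ T', a * b = b * a := by
      intro a ha b hb
      have h1 : (⟨a, ha⟩ : T') * ⟨b, hb⟩ = ⟨b, hb⟩ * ⟨a, ha⟩ := by
        apply e.symm.injective
        rw [map_mul, map_mul, mul_comm]
      exact congrArg Subtype.val h1
    apply le_antisymm _ hle
    intro h hh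
    have hτ := hcomm h hh _ (hle (tau_mem I hI hζ))
    have hρ := hcomm h hh _ (hle (rho_mem I hI hζ))
    rw [mem_Tor I hI hζ]
    refine ⟨?_, ?_, ?_, ?_, mem_X4.mp (hX hh)⟩
    · simpa using congrFun hτ 0
    · have := congrFun hτ 3
      simp at this
      rw [mul_inv_eq_iff_eq_mul, mul_assoc, eq_inv_mul_iff_mul_eq] at this
      exact this.symm
    · simpa using congrFun hρ 1
    · have := congrFun hρ 2
      simp at this
      rw [mul_inv_eq_iff_eq_mul, mul_assoc, eq_inv_mul_iff_mul_eq] at this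
      exact this.symm

theorem Tor_sc {ζ : Kˣ} {h : GLr K 2 4} (hh : h ∈ Tor I hI ζ) :
    (sc (h 0) ↔ sc (h 3)) ∧ (sc (h 1) ↔ sc (h 2)) := by
  obtain ⟨t, rfl⟩ := hh
  rw [eHom_0, eHom_1, eHom_2, eHom_3, cD_sc, cD_sc, cD_sc, cD_sc]
  simp

theorem eq_sG {ζ : Kˣ} {g : GL (Fin 2) K} (h : g * sG ζ = sG ζ * g) (hsq : sc (g * g))
    (hns : ¬ sc g) : ∃ z, sc z ∧ g = z * sG ζ := by
  obtain ⟨b1, b2, b3⟩ := comm_rel h
  obtain ⟨s1, s2, s3⟩ := hsq
  rw [mul_entry] at s1 s2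
  simp [sG_val] at b1 b2 b3
  have hz : (ζ : K) * (ζ : K)⁻¹ = 1 := by simp
  have had := sub_eq_zero.mp b2
  have hb : (g : Matrix (Fin 2) (Fin 2) K) 0 1 ≠ 0 := by
    intro hb
    apply hns
    refine ⟨hb, ?_, had⟩
    rw [hb, zero_mul, neg_zero] at b1
    exact (mul_eq_zero.mp b1.symm).resolve_right ζ.ne_zero
  have ha : (g : Matrix (Fin 2) (Fin 2) K) 0 0 = 0 := by
    have h1 : (g : Matrix (Fin 2) (Fin 2) K) 0 1 * (2 * (g : Matrix (Fin 2) (Fin 2) K) 0 0) = 0 := by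
      linear_combination s1 + (g : Matrix (Fin 2) (Fin 2) K) 0 1 * had
    exact (mul_eq_zero.mp ((mul_eq_zero.mp h1).resolve_left hb)).resolve_left two_ne_zero
  refine ⟨g * (sG ζ)⁻¹, ?_, by group⟩
  have hinv : ∀ i j, ((sG ζ)⁻¹ : GL (Fin 2) K).val i j =
      (!![0, -(ζ : K); ((ζ⁻¹ : Kˣ) : K), 0] : Matrix (Fin 2) (Fin 2) K) i j := fun i j => rfl
  refine ⟨?_, ?_, ?_⟩ <;> simp only [mul_entry, hinv] <;> simp [ha, ← had]
  linear_combination -b1

theorem cases4 {ζ : Kˣ} (hζ : ζ ^ 2 ≠ 1) {τ ρ : GLr K 2 4} (hτ : τ ∈ Tor I hI ζ)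
    (hρ : ρ ∈ Tor I hI ζ) {a b : Fin 4} (h1 : ¬ sc (τ a)) (h2 : sc (τ b))
    (h3 : sc (ρ a)) (h4 : ¬ sc (ρ b)) :
    (τ a * sG 1 = sG 1 * τ a ∧ ρ b * sG ζ = sG ζ * ρ b) ∨
    (τ a * sG ζ = sG ζ * τ a ∧ ρ b * sG 1 = sG 1 * ρ b) := by
  obtain ⟨t0, t3, t1, t2, -⟩ := (mem_Tor I hI hζ τ).mp hτ
  obtain ⟨r0, r3, r1, r2, -⟩ := (mem_Tor I hI hζ ρ).mp hρ
  obtain ⟨ts, ts'⟩ := Tor_sc I hI hτ
  obtain ⟨rs, rs'⟩ := Tor_sc I hI hρ
  fin_cases a <;> fin_cases b <;> simp at h1 h2 h3 h4 ⊢ <;> tauto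

omit [CharZero K] in
theorem sc_one : sc (1 : GL (Fin 2) K) := by
  simp [sc]

theorem sc_iff (g : GL (Fin 2) K) : sc g ↔ ∀ x, g * x = x * g :=
  ⟨fun h x => h.comm x, sc_of_comm⟩

theorem sc_mul_left {z w : GL (Fin 2) K} (hz : sc z) : sc (z * w) ↔ sc w := by
  rw [sc_iff, sc_iff]
  constructor
  · intro h x
    have h1 := h x
    rw [mul_assoc, ← mul_assoc x, ← hz.comm x, mul_assoc z x] at h1
    exact mul_left_cancel h1
  · intro h x
    rw [mul_assoc, h x, ← mul_assoc, hz.comm x, mul_assoc]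

theorem sc_pow {z : GL (Fin 2) K} (hz : sc z) (k : ℕ) : sc (z ^ k) := by
  induction k with
  | zero => simpa using sc_one
  | succ k ih => rw [pow_succ, sc_mul_left ih]; exact hz

theorem sc_prod_pow {z z' a b : GL (Fin 2) K} (hz : sc z) (hz' : sc z') (k : ℕ) :
    sc ((z * a * (z' * b)) ^ k) ↔ sc ((a * b) ^ k) := by
  have h1 : z * a * (z' * b) = (z * z') * (a * b) := by
    rw [mul_assoc z a, ← mul_assoc a z' b, ← hz'.comm a]
    simp only [mul_assoc]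
  have h2 : sc (z * z') := (sc_mul_left hz).mpr hz'
  rw [h1, Commute.mul_pow (h2.comm (a * b)), sc_mul_left (sc_pow h2 k)]

/-- **The invariant.** -/
theorem invariant {ζ ζ' : Kˣ} (hζ : ζ ^ 2 ≠ 1) (hζ' : ζ' ^ 2 ≠ 1) (σ : GLr K 2 4 ≃* GLr K 2 4)
    (hX : σ '' X (fun _ => 1 : Fin 5 → GL (Fin 2) K) = X (fun _ => 1 : Fin 5 → GL (Fin 2) K))
    (hT : Tor I hI ζ' = (Tor I hI ζ).map σ.toMonoidHom) (k : ℕ) :
    ζ ^ (2 * k) = 1 ↔ ζ' ^ (2 * k) = 1 := by
  obtain ⟨π, hinj, hπ⟩ := exists_perm σ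
  have hsc : ∀ i u, sc u ↔ sc (σ (ι i u) (π i)) := by
    intro i u
    rw [sc_iff_all σ i u]
    constructor
    · intro h; exact h _
    · intro h l
      by_cases hl : l = π i
      · rw [hl]; exact h
      · exact hπ i u l hl
  have h01 : π 0 ≠ π 1 := fun h => absurd (hinj h) (by decide)
  have h03 : π 0 ≠ π 3 := fun h => absurd (hinj h) (by decide)
  have h13 : π 1 ≠ π 3 := fun h => absurd (hinj h) (by decide)
  have h02 : π 0 ≠ π 2 := fun h => absurd (hinj h) (by decide)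
  have h12 : π 1 ≠ π 2 := fun h => absurd (hinj h) (by decide)
  have c1 := sG_isC (1 : Kˣ)
  have cζ := sG_isC ζ
  have hmap : ∀ h ∈ Tor I hI ζ, σ h ∈ Tor I hI ζ' := by
    intro h hh
    rw [hT]
    exact ⟨h, hh, rfl⟩
  have hτ := hmap _ (tau_mem I hI hζ)
  have hρ := hmap _ (rho_mem I hI hζ)
  have eτ0 : σ (ι 0 (sG 1) * ι 3 (sG 1)⁻¹) (π 0) = σ (ι 0 (sG 1)) (π 0) := by
    rw [map_mul, Pi.mul_apply, comm_other σ π hπ c1.inv h03, mul_one]
  have eτ1 : σ (ι 0 (sG 1) * ι 3 (sG 1)⁻¹) (π 1) = 1 := by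
    rw [map_mul, Pi.mul_apply, comm_other σ π hπ c1.inv h13, comm_other σ π hπ c1 h01.symm,
      mul_one]
  have eρ1 : σ (ι 1 (sG ζ) * ι 2 (sG ζ)⁻¹) (π 1) = σ (ι 1 (sG ζ)) (π 1) := by
    rw [map_mul, Pi.mul_apply, comm_other σ π hπ cζ.inv h12, mul_one]
  have eρ0 : σ (ι 1 (sG ζ) * ι 2 (sG ζ)⁻¹) (π 0) = 1 := by
    rw [map_mul, Pi.mul_apply, comm_other σ π hπ cζ.inv h02, comm_other σ π hπ cζ h01,
      mul_one]
  have hQ : σ (ι 0 (sG ζ)) (π 0) = σ (ι 1 (sG ζ)) (π 1) :=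
    comm_eq hX π hinj hπ cζ (by decide)
  have hcases := cases4 I hI hζ' hτ hρ (a := π 0) (b := π 1)
    (by rw [eτ0, ← hsc]; exact sG_not_sc 1) (by rw [eτ1]; exact sc_one)
    (by rw [eρ0]; exact sc_one) (by rw [eρ1, ← hsc]; exact sG_not_sc ζ)
  rw [eτ0, eρ1, ← hQ] at hcases
  have nP : ¬ sc (σ (ι 0 (sG 1)) (π 0)) := by rw [← hsc]; exact sG_not_sc 1
  have nQ : ¬ sc (σ (ι 0 (sG ζ)) (π 0)) := by rw [← hsc]; exact sG_not_sc ζ
  have sP : sc (σ (ι 0 (sG 1)) (π 0) * σ (ι 0 (sG 1)) (π 0)) := by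
    rw [← Pi.mul_apply, ← map_mul σ, ← map_mul (ι 0), ← hsc]; exact sG_sq 1
  have sQ : sc (σ (ι 0 (sG ζ)) (π 0) * σ (ι 0 (sG ζ)) (π 0)) := by
    rw [← Pi.mul_apply, ← map_mul σ, ← map_mul (ι 0), ← hsc]; exact sG_sq ζ
  rw [← pow_sc1 ζ k, hsc 0 _, map_pow, map_pow, map_mul, map_mul, Pi.pow_apply, Pi.mul_apply]
  rcases hcases with ⟨h1, h2⟩ | ⟨h1, h2⟩
  · obtain ⟨z, hz, e1⟩ := eq_sG h1 sP nP
    obtain ⟨z', hz', e2⟩ := eq_sG h2 sQ nQ
    rw [e1, e2, sc_prod_pow hz hz', pow_sc1]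
  · obtain ⟨z, hz, e1⟩ := eq_sG h1 sP nP
    obtain ⟨z', hz', e2⟩ := eq_sG h2 sQ nQ
    rw [e1, e2, sc_prod_pow hz hz', pow_sc2]

end torus2

theorem semisimple_one {n : ℕ} : IsSemisimple (1 : GL (Fin n) K) :=
  ⟨1, 1, by simp⟩

/-- **Main theorem.** For every algebraically closed field `K` of characteristic zero there are
`n, r ≥ 1` and semisimple `M_1, …, M_{r+1}` (namely `n = 2`, `r = 4`, `M_i = 1`) such that the
maximal tori contained in `X` fall into infinitely many `H`-orbits. -/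
theorem result (K : Type*) [Field K] [IsAlgClosed K] [CharZero K] :
    ∃ (n r : ℕ) (M : Fin (r + 1) → GL (Fin n) K), 1 ≤ n ∧ 1 ≤ r ∧
      (∀ i, IsSemisimple (M i)) ∧
      {O : Set (Subgroup (GLr K n r)) |
        ∃ T, IsMaximalTorusIn (X M) T ∧ O = orbit M T}.Infinite := by
  refine ⟨2, 4, fun _ => 1, by norm_num, by norm_num, fun _ => semisimple_one, ?_⟩
  obtain ⟨I0, hI0⟩ := IsAlgClosed.exists_eq_mul_self (-1 : K)
  have hI0ne : I0 ≠ 0 := by
    rintro rfl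
    simp at hI0
  set I : Kˣ := Units.mk0 I0 hI0ne with hIdef
  have hI : (I : K) * I = -1 := by rw [hIdef]; simpa using hI0.symm
  have hroot : ∀ m : ℕ, ∃ ζ : Kˣ, IsPrimitiveRoot ζ (2 * (m + 2)) := by
    intro m
    have : NeZero ((2 * (m + 2) : ℕ) : K) := ⟨by
      have : (2 * (m + 2) : ℕ) ≠ 0 := by omega
      exact_mod_cast this⟩
    obtain ⟨z, hz⟩ := HasEnoughRootsOfUnity.exists_primitiveRoot K (2 * (m + 2))
    have hne : z ≠ 0 := hz.ne_zero (by omega)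
    refine ⟨Units.mk0 z hne, ?_⟩
    rw [← IsPrimitiveRoot.coe_units_iff]
    exact hz
  choose ζ hζ using hroot
  have hζ2 : ∀ m, (ζ m) ^ 2 ≠ 1 := by
    intro m h
    have := Nat.le_of_dvd (by norm_num) ((hζ m).dvd_of_pow_eq_one 2 h)
    omega
  have hpow : ∀ m k, (ζ m) ^ (2 * k) = 1 ↔ (m + 2) ∣ k := by
    intro m k
    rw [(hζ m).pow_eq_one_iff_dvd]
    exact Nat.mul_dvd_mul_iff_left (by norm_num)
  have hinj : Function.Injective
      (fun m => orbit (fun _ => 1 : Fin 5 → GL (Fin 2) K) (Tor I hI (ζ m))) := by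
    intro m m' h
    have hmem : Tor I hI (ζ m') ∈ orbit (fun _ => 1 : Fin 5 → GL (Fin 2) K) (Tor I hI (ζ m')) := by
      refine ⟨MulEquiv.refl _, ⟨fun f hf => hf, fun f hf => hf, by simp⟩, ?_⟩
      ext x
      simp
    have hmem' : Tor I hI (ζ m') ∈ orbit (fun _ => 1 : Fin 5 → GL (Fin 2) K) (Tor I hI (ζ m)) := by
      have h' : orbit (fun _ => 1 : Fin 5 → GL (Fin 2) K) (Tor I hI (ζ m)) =
        orbit (fun _ => 1 : Fin 5 → GL (Fin 2) K) (Tor I hI (ζ m')) := h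
      rw [h']; exact hmem
    obtain ⟨σ, hσ, hT⟩ := hmem'
    have hk := invariant I hI (hζ2 m) (hζ2 m') σ hσ.2.2 hT
    simp only [hpow] at hk
    have h1 := (hk (m + 2)).mp (dvd_refl _)
    have h2 := (hk (m' + 2)).mpr (dvd_refl _)
    have := Nat.dvd_antisymm h1 h2
    omega
  refine (Set.infinite_range_of_injective hinj).mono ?_
  rintro _ ⟨m, rfl⟩
  exact ⟨_, Tor_maximal I hI (hζ2 m), rfl⟩

end Pool.Agent.Results.MP_629379_al.InfinitelyManyOrbits
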